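import Mathlib
import Pool.Agent.Q153.StarDefs
import Pool.Agent.Q153.StarA
import Pool.Agent.Q153.StarB

/-! Completions of ray-generated ultrametric spaces and starlike rayless trees: the equivalence. -/

namespace Pool.Agent.Results.MP_16b74e_gt.Equivalence

open Pool.Agent.Q153.Star

universe u

/-- For an infinite ultrametric space, conditions (i) and (ii) are equivalent. -/
theorem result (X : Type u) [MetricSpace X] [IsUltrametricDist X] [Infinite X] :
    CondI X ↔ CondII X :=
  ⟨condII_of_condI, condI_of_condII⟩

end Pool.Agent.Results.MP_16b74e_gt.Equivalence
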